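import Pool.Agent.Helper6.MONO.Stmts

set_option autoImplicit false
noncomputable section
namespace Pool.Agent.Helper6.MONO

/-- the third letter -/
def cutTh (x y : Fin 3) : Fin 3 := -(x + y)

theorem cut_th_dist : ∀ x y : Fin 3, x ≠ y → Dist x y (cutTh x y) := by
  unfold Dist cutTh
  decide

theorem cut_th_comm (x y : Fin 3) : cutTh x y = cutTh y x := by
  unfold cutTh
  rw [add_comm]

theorem cut_th_eq : ∀ x y z : Fin 3, x ≠ y → z ≠ y → z ≠ x → z = cutTh x y := by
  unfold cutTh
  decide

/-- peeling off the maximal alternating prefix -/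
theorem cut_peel : ∀ (r : List (Fin 3)) (x y : Fin 3),
    List.IsChain (fun a b => a ≠ b) (x :: y :: r) →
    ∃ (L : ℕ) (rest : List (Fin 3)), 2 ≤ L ∧ x :: y :: r = alt x y L ++ rest ∧
      (rest = [] ∨ ∃ r', rest = cutTh x y :: r') := by
  intro r
  induction r with
  | nil =>
    intro x y _
    exact ⟨2, [], le_rfl, by simp [alt], Or.inl rfl⟩
  | cons z r ih =>
    intro x y h
    have h1 : x ≠ y := (List.isChain_cons_cons.1 h).1
    have h2 : List.IsChain (fun a b => a ≠ b) (y :: z :: r) := (List.isChain_cons_cons.1 h).2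
    have h3 : y ≠ z := (List.isChain_cons_cons.1 h2).1
    by_cases hz : z = x
    · subst hz
      obtain ⟨L, rest, hL, hw, hr⟩ := ih y z h2
      refine ⟨L + 1, rest, by omega, ?_, ?_⟩
      · rw [hw]
        rfl
      · rw [cut_th_comm]
        exact hr
    · refine ⟨2, z :: r, le_rfl, by simp [alt], Or.inr ⟨r, ?_⟩⟩
      rw [cut_th_eq x y z h1 (Ne.symm h3) hz]

theorem cut_alt_snoc : ∀ (L : ℕ) (x y : Fin 3),
    alt x y (L + 1) = alt x y L ++ [if L % 2 = 0 then x else y] := by
  intro L
  induction L with
  | zero => intro x y; simp [alt]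
  | succ L ih =>
    intro x y
    have h1 : alt x y (L + 1 + 1) = x :: alt y x (L + 1) := rfl
    have h2 : alt x y (L + 1) = x :: alt y x L := rfl
    rw [h1, ih y x, h2, List.cons_append]
    congr 2
    rcases Nat.mod_two_eq_zero_or_one L with h | h
    · rw [if_pos h, if_neg (by omega)]
    · rw [if_neg (by omega), if_pos (by omega)]

theorem cut_alt_reverse : ∀ (L : ℕ) (x y : Fin 3),
    (alt x y L).reverse = if L % 2 = 0 then alt y x L else alt x y L := by
  intro L
  induction L with
  | zero => intro x y; simp [alt]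
  | succ L ih =>
    intro x y
    rw [cut_alt_snoc, List.reverse_append, ih x y, List.reverse_singleton, List.singleton_append]
    rcases Nat.mod_two_eq_zero_or_one L with h | h
    · have h1 := cut_alt_snoc L x y
      rw [if_pos h] at h1
      rw [if_pos h, if_pos h, if_neg (by omega), ← h1]
      rfl
    · rw [if_neg (by omega), if_neg (by omega), if_pos (by omega)]
      rfl

/-- shape of the head -/
def cutHead (h : List (Fin 3)) : Prop :=
  (∃ i j n, i ≠ j ∧ h = alt i j n) ∨ (∃ a i j n, i ≠ j ∧ h = a :: alt i j n)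

inductive CutGood : List (Fin 3) → (Fin 3 × Fin 3 × Fin 3) → Prop
  | base (h : List (Fin 3)) (c d e : Fin 3) : Dist c d e → cutHead h → CutGood h (c, d, e)
  | step (v : List (Fin 3)) (c d e : Fin 3) (ε : Bool) (m : ℕ) : CutGood v (c, d, e) →
      (ε = true → 2 ≤ m) → (ε = false → 3 ≤ m) →
      CutGood (v ++ blk d e ε m) (nx (ev2 m) c d e)

theorem cut_bw_snoc : ∀ (bs : List (Bool × ℕ)) (c d e : Fin 3) (ε : Bool) (m : ℕ),
    bw (c, d, e) (bs ++ [(ε, m)]) =
      bw (c, d, e) bs ++ blk (sP (c, d, e) bs).2.1 (sP (c, d, e) bs).2.2 ε m ∧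
    sP (c, d, e) (bs ++ [(ε, m)]) =
      nx (ev2 m) (sP (c, d, e) bs).1 (sP (c, d, e) bs).2.1 (sP (c, d, e) bs).2.2 := by
  intro bs
  induction bs with
  | nil =>
    intro c d e ε m
    refine ⟨?_, rfl⟩
    have h1 : bw (c, d, e) ([] ++ [(ε, m)]) = blk d e ε m ++ bw (nx (ev2 m) c d e) [] := rfl
    have h2 : bw (c, d, e) [] = [] := by simp [bw]
    have h3 : bw (nx (ev2 m) c d e) [] = [] := by simp [bw]
    rw [h1, h2, h3, List.append_nil, List.nil_append]
    rfl
  | cons b bs ih =>
    intro c d e ε m
    obtain ⟨ε', m'⟩ := b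
    obtain ⟨c', d', e'⟩ : Fin 3 × Fin 3 × Fin 3 := nx (ev2 m') c d e
    have h1 : bw (c, d, e) ((ε', m') :: bs ++ [(ε, m)]) =
      blk d e ε' m' ++ bw (nx (ev2 m') c d e) (bs ++ [(ε, m)]) := rfl
    have h2 : bw (c, d, e) ((ε', m') :: bs) = blk d e ε' m' ++ bw (nx (ev2 m') c d e) bs := rfl
    have h3 : sP (c, d, e) ((ε', m') :: bs ++ [(ε, m)]) =
      sP (nx (ev2 m') c d e) (bs ++ [(ε, m)]) := rfl
    have h4 : sP (c, d, e) ((ε', m') :: bs) = sP (nx (ev2 m') c d e) bs := rfl
    have h5 := ih (nx (ev2 m') c d e).1 (nx (ev2 m') c d e).2.1 (nx (ev2 m') c d e).2.2 ε m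
    rw [h1, h2, h3, h4]
    constructor
    · rw [List.append_assoc]
      congr 1
      exact h5.1
    · exact h5.2

theorem cut_good {u : List (Fin 3)} {t : Fin 3 × Fin 3 × Fin 3} (hg : CutGood u t) :
    ∃ (h : List (Fin 3)) (c d e : Fin 3) (bs : List (Bool × ℕ)), Dist c d e ∧ shp bs ∧
      u = h ++ bw (c, d, e) bs ∧ cutHead h ∧ sP (c, d, e) bs = t := by
  induction hg with
  | base h c d e hd hh =>
    refine ⟨h, c, d, e, [], hd, ?_, ?_, hh, ?_⟩
    · intro b hb
      simp at hb
    · simp [bw]
    · simp [sP]
  | step v c d e ε m _ h2 h3 ih =>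
    obtain ⟨h, c', d', e', bs, hd, hs, hv, hh, ht⟩ := ih
    have h4 := cut_bw_snoc bs c' d' e' ε m
    rw [ht] at h4
    refine ⟨h, c', d', e', bs ++ [(ε, m)], hd, ?_, ?_, hh, h4.2⟩
    · intro b hb
      rcases List.mem_append.1 hb with hb | hb
      · exact hs b hb
      · rw [List.mem_singleton] at hb
        subst hb
        exact ⟨h2, h3⟩
    · rw [h4.1, ← List.append_assoc, ← hv]

theorem cut_main : ∀ (n : ℕ) (r : List (Fin 3)) (x y : Fin 3), r.length ≤ n →
    List.IsChain (fun a b => a ≠ b) (x :: y :: r) →
    CutGood (x :: y :: r).reverse (x, y, cutTh x y) := by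
  intro n
  induction n with
  | zero =>
    intro r x y hr h
    have hr0 : r = [] := List.eq_nil_of_length_eq_zero (Nat.le_zero.1 hr)
    subst hr0
    have h1 : x ≠ y := (List.isChain_cons_cons.1 h).1
    refine CutGood.base _ _ _ _ (cut_th_dist x y h1) (Or.inl ⟨y, x, 2, Ne.symm h1, ?_⟩)
    simp [alt]
  | succ n ih =>
    intro r x y hr h
    have h1 : x ≠ y := (List.isChain_cons_cons.1 h).1
    have hD := cut_th_dist x y h1
    obtain ⟨L, rest, hL, hw, hrest⟩ := cut_peel r x y h
    have hlenalt : ∀ (L : ℕ) (x y : Fin 3), (alt x y L).length = L := by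
      intro L
      induction L with
      | zero => intro x y; rfl
      | succ L ih => intro x y; change (alt y x L).length + 1 = L + 1; rw [ih]
    have hrev : (x :: y :: r).reverse = rest.reverse ++
        (if L % 2 = 0 then alt y x L else alt x y L) := by
      rw [hw, List.reverse_append, cut_alt_reverse]
    have hB : ∃ i j, i ≠ j ∧ (if L % 2 = 0 then alt y x L else alt x y L) = alt i j L := by
      split_ifs
      · exact ⟨y, x, Ne.symm h1, rfl⟩
      · exact ⟨x, y, h1, rfl⟩
    rcases hrest with h0 | ⟨r', h0⟩
    · obtain ⟨i, j, hij, hB⟩ := hB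
      rw [hrev, h0, List.reverse_nil, List.nil_append, hB]
      exact CutGood.base _ _ _ _ hD (Or.inl ⟨i, j, L, hij, rfl⟩)
    · cases r' with
      | nil =>
        obtain ⟨i, j, hij, hB⟩ := hB
        rw [hrev, h0, List.reverse_singleton, hB]
        exact CutGood.base _ _ _ _ hD (Or.inr ⟨cutTh x y, i, j, L, hij, rfl⟩)
      | cons d r'' =>
        -- the previous star
        have hch : List.IsChain (fun a b => a ≠ b) (cutTh x y :: d :: r'') := by
          rw [hw, h0] at h
          exact (List.isChain_append.1 h).2.1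
        have hlen : r''.length ≤ n := by
          have h5 := congrArg List.length hw
          rw [List.length_append, hlenalt, h0] at h5
          simp only [List.length_cons] at h5
          omega
        have hv := ih r'' (cutTh x y) d hlen hch
        have hcd : cutTh x y ≠ d := (List.isChain_cons_cons.1 hch).1
        have hcases : (d = x ∧ cutTh (cutTh x y) d = y) ∨ (d = y ∧ cutTh (cutTh x y) d = x) := by
          have key : ∀ x y d : Fin 3, x ≠ y → cutTh x y ≠ d →
              (d = x ∧ cutTh (cutTh x y) d = y) ∨ (d = y ∧ cutTh (cutTh x y) d = x) := by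
            unfold cutTh
            decide
          exact key x y d h1 hcd
        rw [hrev, h0]
        rcases Nat.mod_two_eq_zero_or_one L with hp | hp
        · rw [if_pos hp]
          rcases hcases with ⟨hd, he⟩ | ⟨hd, he⟩
          · rw [he] at hv
            have h6 := CutGood.step _ _ _ _ false (L + 1) hv (by simp) (by intro _; omega)
            have h7 : nx (ev2 (L + 1)) (cutTh x y) d y = (x, y, cutTh x y) := by
              have : ev2 (L + 1) = false := by unfold ev2; simp; omega
              rw [this, hd]
              rfl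
            have h8 : blk d y false (L + 1) = alt y x L := by rw [hd]; rfl
            rw [h7, h8] at h6
            exact h6
          · rw [he] at hv
            have h6 := CutGood.step _ _ _ _ true L hv (by intro _; omega) (by simp)
            have h7 : nx (ev2 L) (cutTh x y) d x = (x, y, cutTh x y) := by
              have : ev2 L = true := by unfold ev2; simp; omega
              rw [this, hd]
              rfl
            have h8 : blk d x true L = alt y x L := by rw [hd]; rfl
            rw [h7, h8] at h6
            exact h6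
        · rw [if_neg (by omega)]
          rcases hcases with ⟨hd, he⟩ | ⟨hd, he⟩
          · rw [he] at hv
            have h6 := CutGood.step _ _ _ _ true L hv (by intro _; omega) (by simp)
            have h7 : nx (ev2 L) (cutTh x y) d y = (x, y, cutTh x y) := by
              have : ev2 L = false := by unfold ev2; simp; omega
              rw [this, hd]
              rfl
            have h8 : blk d y true L = alt x y L := by rw [hd]; rfl
            rw [h7, h8] at h6
            exact h6
          · rw [he] at hv
            have h6 := CutGood.step _ _ _ _ false (L + 1) hv (by simp) (by intro _; omega)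
            have h7 : nx (ev2 (L + 1)) (cutTh x y) d x = (x, y, cutTh x y) := by
              have : ev2 (L + 1) = true := by unfold ev2; simp; omega
              rw [this, hd]
              rfl
            have h8 : blk d x false (L + 1) = alt x y L := by rw [hd]; rfl
            rw [h7, h8] at h6
            exact h6

theorem st_CUT : ST_CUT := by
  intro u hu
  have hD : Dist 0 1 2 := by unfold Dist; decide
  have hs : shp [] := by
    intro b hb
    simp at hb
  have hrev : List.IsChain (fun a b => a ≠ b) u.reverse := by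
    rw [List.isChain_reverse]
    exact hu.imp fun a b h => Ne.symm h
  rcases hw : u.reverse with _ | ⟨x, _ | ⟨y, r⟩⟩
  · have : u = [] := List.reverse_eq_nil_iff.1 hw
    subst this
    exact ⟨[], 0, 1, 2, [], hD, hs, by simp [bw], Or.inl ⟨0, 1, 0, by decide, rfl⟩⟩
  · have : u = [x] := by
      have h1 := congrArg List.reverse hw
      rwa [List.reverse_reverse, List.reverse_singleton] at h1
    subst this
    refine ⟨[x], 0, 1, 2, [], hD, hs, by simp [bw], Or.inl ⟨x, x + 1, 1, ?_, rfl⟩⟩
    have key : ∀ x : Fin 3, x ≠ x + 1 := by decide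
    exact key x
  · rw [hw] at hrev
    have h1 := cut_main r.length r x y le_rfl hrev
    rw [← hw, List.reverse_reverse] at h1
    obtain ⟨h, c, d, e, bs, hd, hs, hu', hh, _⟩ := cut_good h1
    exact ⟨h, c, d, e, bs, hd, hs, hu', hh⟩

end Pool.Agent.Helper6.MONO
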